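import Mathlib
import Pool.Agent.U709.FF.Stm

/-!
# Project FF, package NF: algebraic integers whose reductions have smooth order
-/

set_option autoImplicit false

namespace Pool.Agent.U256.FF.NF

open Pool.Agent.U709.FF NumberField

lemma nprod (K : Type) [Field K] [NumberField K] (x : 𝓞 K) :
    ∏ σ : K →ₐ[ℚ] ℂ, ‖σ (x : K)‖ = |((Algebra.norm ℤ x : ℤ) : ℝ)| := by
  have h1 := Algebra.norm_eq_prod_embeddings ℚ ℂ (x : K)
  rw [← Algebra.coe_norm_int] at h1
  have h2 := congrArg norm h1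
  rw [_root_.norm_prod] at h2
  rw [← h2]
  simp

theorem t_NF (h : AN) : NF := by
  intro K _ _ x hx B hB hI
  by_cases hx1 : x = 1
  · exact ⟨1, one_pos, by rw [hx1, one_pow]⟩
  by_contra hno
  push Not at hno
  have hxK : (x : K) ≠ 0 := by
    intro h0
    exact hx (by exact_mod_cast h0)
  -- some embedding is large
  have hbig : ∃ σ : K →ₐ[ℚ] ℂ, 1 < ‖σ (x : K)‖ := by
    by_contra hle
    push Not at hle
    have h1 : ∀ φ : K →+* ℂ, ‖φ (x : K)‖ ≤ 1 := fun φ => hle φ.toRatAlgHom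
    obtain ⟨t, ht, hxt⟩ := Embeddings.pow_eq_one_of_norm_le_one K ℂ hxK
      (RingOfIntegers.isIntegral_coe x) h1
    exact hno t ht (by exact_mod_cast hxt)
  have hsub : x - 1 ≠ 0 := sub_ne_zero.2 hx1
  set N : ℕ := (Algebra.norm ℤ (x - 1)).natAbs with hN
  have hN0 : N ≠ 0 := by
    rw [hN, Int.natAbs_ne_zero]
    exact Algebra.norm_ne_zero_iff.2 hsub
  have hM : 0 < B * N := Nat.mul_pos hB (Nat.pos_of_ne_zero hN0)
  obtain ⟨k, hk⟩ := h (K →ₐ[ℚ] ℂ) (fun σ => σ (x : K)) (B * N) hM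
    (fun σ h1 => hx1 (by
      have h2 : (x : K) = 1 := (RingHom.injective (σ : K →+* ℂ)) (by
        rw [map_one]
        exact h1)
      exact_mod_cast h2)) hbig (N : ℝ)
  set m : ℕ := 1 + B * N * k with hm
  set S : 𝓞 K := ∑ i ∈ Finset.range m, x ^ i with hS
  have hgeom : (x - 1) * S = x ^ m - 1 := mul_geom_sum x m
  have hunit : IsUnit S := by
    by_contra hnu
    obtain ⟨I, hImax, hSI⟩ := exists_max_ideal_of_mem_nonunits hnu
    have e1 : (Ideal.Quotient.mk I x) ^ m = 1 := by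
      rw [← map_pow, ← sub_eq_zero, ← map_one (Ideal.Quotient.mk I), ← map_sub, ← hgeom,
        Ideal.Quotient.eq_zero_iff_mem]
      exact Ideal.mul_mem_left I _ hSI
    have hcop : m.Coprime B := by
      rw [hm, mul_assoc]
      simp
    have e2 := hI I hImax m hcop e1
    have e3 : Ideal.Quotient.mk I S = (m : 𝓞 K ⧸ I) := by
      rw [hS, map_sum]
      simp [e2]
    have e4 : (m : 𝓞 K ⧸ I) = 0 := by
      rw [← e3, Ideal.Quotient.eq_zero_iff_mem]
      exact hSI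
    have e5 : x - 1 ∈ I := by
      rw [← Ideal.Quotient.eq_zero_iff_mem, map_sub, e2, map_one, sub_self]
    have e6 : ((N : ℕ) : 𝓞 K) ∈ I := by
      have h1 := Ideal.absNorm_mem (Ideal.span {x - 1})
      rw [Ideal.absNorm_span_singleton] at h1
      exact (Ideal.span_singleton_le_iff_mem I).2 e5 h1
    have e7 : ((N : ℕ) : 𝓞 K ⧸ I) = 0 := by
      have := Ideal.Quotient.eq_zero_iff_mem.2 e6
      rwa [map_natCast] at this
    have e8 : (m : 𝓞 K ⧸ I) = 1 := by
      rw [hm]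
      push_cast
      rw [e7]
      ring
    rw [e4] at e8
    have : Nontrivial (𝓞 K ⧸ I) := Ideal.Quotient.nontrivial_iff.2 hImax.ne_top
    exact zero_ne_one e8
  have hnS : |((Algebra.norm ℤ S : ℤ) : ℝ)| = 1 := by
    have h1 : IsUnit (Algebra.norm ℤ S) := hunit.map (Algebra.norm ℤ)
    rcases Int.isUnit_iff.1 h1 with h2 | h2 <;> rw [h2] <;> simp
  have hfin : ∏ σ : K →ₐ[ℚ] ℂ, ‖(σ (x : K)) ^ m - 1‖ = (N : ℝ) := by
    have h1 := nprod K (x ^ m - 1)
    have h2 : ∀ σ : K →ₐ[ℚ] ℂ, σ (((x ^ m - 1 : 𝓞 K)) : K) = (σ (x : K)) ^ m - 1 := by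
      intro σ
      push_cast
      rw [map_sub, map_pow, map_one]
    simp only [h2] at h1
    rw [h1, ← hgeom, map_mul]
    push_cast
    rw [abs_mul, hnS, mul_one, hN, ← Int.cast_abs, Int.abs_eq_natAbs]
    simp
  rw [← hfin] at hk
  exact lt_irrefl _ hk

end Pool.Agent.U256.FF.NF
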